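import Pool.Agent.H35.KB.Stmts
import Pool.Agent.H27.KB.NDB
import Pool.Agent.H52.KB.Bridge

/-!
# Project KB, part APR: a priori bound for the combined functional, for all frames
-/

set_option autoImplicit false
set_option linter.unusedSectionVars false

open MeasureTheory Set Filter Topology
open scoped ContDiff

namespace Pool.Agent.H85.KB

open Pool.Agent.H84 Pool.Agent.H84.Sym Pool.Agent.H84.Sym.P2x Pool.Agent.H19.KL
open Pool.Agent.H73.KG Pool.Agent.H20.KH Pool.Agent.H52.KB Pool.Agent.H35.KB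
open Pool.Agent.H55.KB (WS spl FL gN GG ML)

section measures

variable {E : Type} [NormedAddCommGroup E] [InnerProductSpace ℝ E]
    [FiniteDimensional ℝ E] [MeasurableSpace E] [BorelSpace E]

/-- a priori bound for one level in the fixed basis -/
theorem hs_bd {t : ℝ} (ht : 0 < t) (m : ℕ) (hm : m ≠ 0) : ∃ B : ℝ, 0 ≤ B ∧
    ∀ U : E → ℝ, PP U t → ∀ ψ : E → ℝ, GC ψ → hs (b0 E) U ψ m ≤ B * cv U ψ ψ := by
  classical
  obtain ⟨B, hB, h⟩ := Pool.Agent.H27.KB.nd_bd_fin (E := E) ht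
    (κ := Fin m → JJ E) (fun w => (List.ofFn w).map (b0 E)) (by
      intro w hw
      have := congrArg List.length hw
      simp only [List.length_map, List.length_ofFn, List.length_nil] at this
      exact hm this)
  refine ⟨(Fintype.card (Fin m → JJ E) : ℝ) * B, mul_nonneg (Nat.cast_nonneg _) hB,
    fun U hU ψ hψ => ?_⟩
  have h1 : ∀ w : Fin m → JJ E,
      np (b0 E) U ψ (List.ofFn w) ^ 2 ≤ B * cv U ψ ψ := by
    intro w
    have h2 := h w U hU ψ hψ 0 0 le_rfl
    rw [Pool.Agent.H52.KB.cv_pw_zero hU ψ ψ] at h2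
    exact h2
  unfold hs WS
  calc ∑ w : Fin m → JJ E, np (b0 E) U ψ (List.ofFn w) ^ 2
      ≤ ∑ _w : Fin m → JJ E, B * cv U ψ ψ := Finset.sum_le_sum fun w _ => h1 w
    _ = (Fintype.card (Fin m → JJ E) : ℝ) * B * cv U ψ ψ := by
        rw [Finset.sum_const, Finset.card_univ, nsmul_eq_mul, mul_assoc]

variable (E) in
/-- APR -/
theorem apr_thm (hTRF : TRFStmt E) : APRStmt E := by
  intro t ht n lam hlam
  obtain ⟨B1, hB1, h1⟩ := hs_bd (E := E) ht (n + 2) (by omega)
  obtain ⟨B2, hB2, h2⟩ := hs_bd (E := E) ht (n + 1) (by omega)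
  refine ⟨B1 + lam * B2, add_nonneg hB1 (mul_nonneg hlam hB2), ?_⟩
  intro U e he ψ hψ
  obtain ⟨U', hU', -, -, hT⟩ := hTRF t U e he
  obtain ⟨ψ', hψ', hcv, hnp, -⟩ := hT ψ hψ
  have e1 : ∀ m, hs e U ψ m = hs (b0 E) U' ψ' m := by
    intro m
    unfold hs
    congr 1
    funext l
    exact congrArg (· ^ 2) (hnp l).symm
  rw [e1, e1, ← hcv, add_mul, mul_assoc]
  exact add_le_add (h1 U' hU' ψ' hψ') (mul_le_mul_of_nonneg_left (h2 U' hU' ψ' hψ') hlam)

end measures

end Pool.Agent.H85.KB
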